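import Pool.Agent.H81.NCH.Stmts

/-!
# NCH module AVI: a factor which does not depend on the averaged coordinates (MP_f18ce0_lc)
-/

set_option autoImplicit false

namespace Pool.Agent.H81.NCH

theorem avi_thm : AVIStmt := by
  intro h m S F G ω _ hG
  unfold avg
  rw [← mul_div_assoc, Finset.mul_sum]
  refine congrArg (fun x : ℝ => x / (Fintype.card (Om h m) : ℝ)) (Finset.sum_congr rfl ?_)
  intro η _
  show G (mixS S η ω) * F (mixS S η ω) = G ω * F (mixS S η ω)
  rw [hG η]

end Pool.Agent.H81.NCH
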